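import Mathlib

/-!
# Attractors of flows on closed manifolds: definitions

`N` is a manifold modelled on a finite-dimensional real vector space `E` (for instance `ℝⁿ`), without
boundary. As in Mathlib, the tangent space `TangentSpace 𝓘(ℝ, E) x` is `E` (a vector is described by
its coordinates in the preferred chart at `x`).
-/

set_option autoImplicit false

open scoped Topology ContDiff Manifold
open Set MeasureTheory

namespace Pool.Agent.R552.FA

universe u v

section

variable (E : Type u) [NormedAddCommGroup E] [NormedSpace ℝ E] (N : Type v) [TopologicalSpace N]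
  [ChartedSpace E N]

/-- Vector fields on `N`. -/
abbrev Fld : Type _ := (x : N) → TangentSpace 𝓘(ℝ, E) x

end

variable {E : Type u} [NormedAddCommGroup E] [NormedSpace ℝ E] {N : Type v} [TopologicalSpace N]
  [ChartedSpace E N]

/-- `γ` is a trajectory of `X`: `γ' (t) = X (γ t)` for all real `t`. -/
def Traj (X : Fld E N) (γ : ℝ → N) : Prop := IsMIntegralCurve (I := 𝓘(ℝ, E)) γ X

/-- The vector field `X` is of class `C^r`. -/
def IsCr (r : ℕ∞) [IsManifold 𝓘(ℝ, E) ∞ N] (X : Fld E N) : Prop :=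
  ContMDiff 𝓘(ℝ, E) 𝓘(ℝ, E).tangent r (fun x => (⟨x, X x⟩ : TangentBundle 𝓘(ℝ, E) N))

variable (E) in
/-- The function `h` is smooth. -/
def Smooth (h : N → ℝ) : Prop := ContMDiff 𝓘(ℝ, E) 𝓘(ℝ, ℝ) ∞ h

variable (E) in
/-- The differential of the function `h` at `x`. -/
noncomputable def diff (h : N → ℝ) (x : N) : E →L[ℝ] ℝ := mfderiv 𝓘(ℝ, E) 𝓘(ℝ, ℝ) h x

variable (E) in
/-- `x` is a critical point of `h`. -/
def IsCrit (h : N → ℝ) (x : N) : Prop := diff E h x = 0

/-- The `ω`-limit set of a trajectory. -/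
def omega {N : Type v} [TopologicalSpace N] (γ : ℝ → N) : Set N := ⋂ T : ℝ, closure (γ '' Ici T)

/-- `Λ` is invariant under the flow of `X`. -/
def Invt (X : Fld E N) (Λ : Set N) : Prop := ∀ γ : ℝ → N, Traj X γ → γ 0 ∈ Λ → ∀ t, γ t ∈ Λ

/-- `Λ` contains a point whose forward trajectory is dense in `Λ`. -/
def Transitive (X : Fld E N) (Λ : Set N) : Prop :=
  ∃ γ : ℝ → N, Traj X γ ∧ γ 0 ∈ Λ ∧ Λ ⊆ closure (γ '' Ici 0)

/-- The basin of `Λ`: the points whose `ω`-limit set is contained in `Λ`. -/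
def basin (X : Fld E N) (Λ : Set N) : Set N :=
  {p | ∀ γ : ℝ → N, Traj X γ → γ 0 = p → omega γ ⊆ Λ}

/-- The flow of `X` has finitely many attractors (invariant transitive sets whose basin has positive
measure) whose basins cover `N` up to a set of measure zero. -/
def FiniteAttractors [MeasurableSpace N] (μ : Measure N) (X : Fld E N) : Prop :=
  ∃ S : Set (Set N), S.Finite ∧
    (∀ Λ ∈ S, Invt X Λ ∧ Transitive X Λ ∧ 0 < μ (basin X Λ)) ∧ μ (⋃ Λ ∈ S, basin X Λ)ᶜ = 0

/-- `h` is smooth and does not decrease along the trajectories of `X`: `dh(X) ≥ 0`. -/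
def Nondecreasing (X : Fld E N) (h : N → ℝ) : Prop := Smooth E h ∧ ∀ x, 0 ≤ diff E h x (X x)

/-- The trajectories of `X` consisting of critical points of `h` are contained in the sets `M i`,
which are pairwise disjoint, closed, invariant, transitive and consist of critical points of `h`. -/
def CritPieces (X : Fld E N) (h : N → ℝ) (m : ℕ) (M : Fin m → Set N) : Prop :=
  (∀ i, IsClosed (M i) ∧ Invt X (M i) ∧ Transitive X (M i) ∧ ∀ x ∈ M i, IsCrit E h x) ∧
  (∀ i j, i ≠ j → Disjoint (M i) (M j)) ∧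
  ∀ γ : ℝ → N, Traj X γ → (∀ t, IsCrit E h (γ t)) → ∃ i, γ 0 ∈ M i

/-- `a + ε b` -/
def addMul (ε : ℝ) (a b : E) : E := a + ε • b

/-- The vector field `X + ε W`. -/
def pert (X W : Fld E N) (ε : ℝ) : Fld E N := fun x => addMul (E := E) ε (X x) (W x)

end Pool.Agent.R552.FA
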