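import Mathlib

/-! Finiteness of the critical points of `H + ⟨a, U⟩` for almost every `a`: the local statement. -/

set_option autoImplicit false
set_option maxHeartbeats 400000

open scoped Topology ContDiff
open Set MeasureTheory Filter Metric

noncomputable section

namespace Pool.Agent.R552.FA

/-- A measurable set all of whose sections in the directions of `ι` are null is null. -/
lemma null_of_sections {A E : Type*} [NormedAddCommGroup A] [NormedSpace ℝ A]
    [FiniteDimensional ℝ A] [MeasurableSpace A] [BorelSpace A] [NormedAddCommGroup E]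
    [NormedSpace ℝ E] [FiniteDimensional ℝ E] [MeasurableSpace E] [BorelSpace E]
    (μ : Measure A) [μ.IsAddHaarMeasure] (ν : Measure E) [ν.IsAddHaarMeasure] (ι : E →L[ℝ] A)
    {B : Set A} (hB : MeasurableSet B) (h : ∀ a, ν {b | a + ι b ∈ B} = 0) : μ B = 0 := by
  have := FiniteDimensional.proper_real A
  have := FiniteDimensional.proper_real E
  set S : Set (A × E) := {p | p.2 ∈ ball (0 : E) 1 ∧ p.1 + ι p.2 ∈ B} with hS
  have hSm : MeasurableSet S := by
    refine MeasurableSet.inter (measurableSet_ball.preimage measurable_snd) ?_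
    have hc : Continuous fun p : A × E => p.1 + ι p.2 := by fun_prop
    exact hB.preimage hc.measurable
  have h1 : (μ.prod ν) S = 0 := by
    rw [Measure.prod_apply hSm, lintegral_eq_zero_iff (measurable_measure_prodMk_left hSm)]
    refine Eventually.of_forall fun a => ?_
    refine measure_mono_null ?_ (h a)
    intro b hb
    exact hb.2
  have h2 : (μ.prod ν) S = ∫⁻ b, (ball (0 : E) 1).indicator (fun _ => μ B) b ∂ν := by
    rw [Measure.prod_apply_symm hSm]
    refine lintegral_congr fun b => ?_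
    by_cases hb : b ∈ ball (0 : E) 1
    · rw [indicator_of_mem hb]
      have : (fun x => (x, b)) ⁻¹' S = (fun x => x + ι b) ⁻¹' B := by
        ext x
        simp only [hS, mem_preimage, mem_setOf_eq]
        exact ⟨fun h => h.2, fun h => ⟨hb, h⟩⟩
      rw [this, measure_preimage_add_right]
    · rw [indicator_of_notMem hb]
      have : (fun x => (x, b)) ⁻¹' S = ∅ := by
        ext x
        simp only [hS, mem_preimage, mem_setOf_eq, mem_empty_iff_false, iff_false]
        exact fun h => hb h.1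
      rw [this, measure_empty]
  rw [h1, lintegral_indicator measurableSet_ball, setLIntegral_const] at h2
  rcases mul_eq_zero.1 h2.symm with h3 | h3
  · exact h3
  · exact absurd h3 (measure_ball_pos ν _ one_pos).ne'

variable {E : Type*} [NormedAddCommGroup E] [NormedSpace ℝ E] [FiniteDimensional ℝ E] {k : ℕ}


open scoped RealInnerProductSpace

/-- the family of functions -/
def Phi (H : E → ℝ) (U : E → EuclideanSpace ℝ (Fin k)) (a : EuclideanSpace ℝ (Fin k)) (w : E) : ℝ :=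
  H w + ⟪a, U w⟫

/-- the gradient -/
def gam (T : E ≃L[ℝ] (E →L[ℝ] ℝ)) (H : E → ℝ) (U : E → EuclideanSpace ℝ (Fin k))
    (a : EuclideanSpace ℝ (Fin k)) (w : E) : E := T.symm (fderiv ℝ (Phi H U a) w)

variable {V : Set E} {H : E → ℝ} {U : E → EuclideanSpace ℝ (Fin k)}
  {ι : E →L[ℝ] EuclideanSpace ℝ (Fin k)} {T : E ≃L[ℝ] (E →L[ℝ] ℝ)} {K : Set E}

lemma phi_smooth (hH : ∀ w ∈ V, ContDiffAt ℝ 2 H w) (hU : ∀ w ∈ V, ContDiffAt ℝ 2 U w)
    (a : EuclideanSpace ℝ (Fin k)) {w : E} (hw : w ∈ V) :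
    ContDiffAt ℝ 2 (fun p : EuclideanSpace ℝ (Fin k) × E => Phi H U p.1 p.2) (a, w) := by
  unfold Phi
  have h1 : ContDiffAt ℝ 2 (fun p : EuclideanSpace ℝ (Fin k) × E => H p.2) (a, w) :=
    (hH w hw).comp (a, w) contDiffAt_snd
  have h2 : ContDiffAt ℝ 2 (fun p : EuclideanSpace ℝ (Fin k) × E => U p.2) (a, w) :=
    (hU w hw).comp (a, w) contDiffAt_snd
  exact h1.add (contDiffAt_fst.inner ℝ h2)

lemma gam_smooth (hH : ∀ w ∈ V, ContDiffAt ℝ 2 H w) (hU : ∀ w ∈ V, ContDiffAt ℝ 2 U w)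
    (a : EuclideanSpace ℝ (Fin k)) {w : E} (hw : w ∈ V) :
    ContDiffAt ℝ 1 (fun p : EuclideanSpace ℝ (Fin k) × E => gam T H U p.1 p.2) (a, w) := by
  unfold gam
  have h1 : ContDiffAt ℝ 1 (fun p : EuclideanSpace ℝ (Fin k) × E => fderiv ℝ (Phi H U p.1) p.2)
      (a, w) := by
    refine ContDiffAt.fderiv (n := 2) (f := fun (p : EuclideanSpace ℝ (Fin k) × E) (w' : E) =>
      Phi H U p.1 w') (g := Prod.snd) ?_ contDiffAt_snd (by norm_num)
    have h2 : ContDiffAt ℝ 2 (fun q : (EuclideanSpace ℝ (Fin k) × E) × E =>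
        ((q.1.1, q.2) : EuclideanSpace ℝ (Fin k) × E)) ((a, w), w) :=
      (contDiffAt_fst.fst).prodMk contDiffAt_snd
    exact ContDiffAt.comp ((a, w), w) (phi_smooth hH hU a hw) h2
  exact T.symm.contDiff.contDiffAt.comp (a, w) h1

lemma der_cont (hH : ∀ w ∈ V, ContDiffAt ℝ 2 H w) (hU : ∀ w ∈ V, ContDiffAt ℝ 2 U w)
    (a : EuclideanSpace ℝ (Fin k)) {w : E} (hw : w ∈ V) :
    ContinuousAt (fun p : EuclideanSpace ℝ (Fin k) × E => fderiv ℝ (gam T H U p.1) p.2) (a, w) := by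
  have h1 : ContDiffAt ℝ 0 (fun p : EuclideanSpace ℝ (Fin k) × E =>
      fderiv ℝ (gam T H U p.1) p.2) (a, w) := by
    refine ContDiffAt.fderiv (n := 1) (f := fun (p : EuclideanSpace ℝ (Fin k) × E) (w' : E) =>
      gam T H U p.1 w') (g := Prod.snd) ?_ contDiffAt_snd (by norm_num)
    have h2 : ContDiffAt ℝ 1 (fun q : (EuclideanSpace ℝ (Fin k) × E) × E =>
        ((q.1.1, q.2) : EuclideanSpace ℝ (Fin k) × E)) ((a, w), w) :=
      (contDiffAt_fst.fst).prodMk contDiffAt_snd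
    exact ContDiffAt.comp (g := fun p : EuclideanSpace ℝ (Fin k) × E => gam T H U p.1 p.2)
      ((a, w), w) (gam_smooth hH hU a hw) h2
  exact h1.continuousAt

lemma gam_diff (hH : ∀ w ∈ V, ContDiffAt ℝ 2 H w) (hU : ∀ w ∈ V, ContDiffAt ℝ 2 U w)
    (a : EuclideanSpace ℝ (Fin k)) {w : E} (hw : w ∈ V) :
    HasFDerivAt (gam T H U a) (fderiv ℝ (gam T H U a) w) w := by
  have h1 : ContDiffAt ℝ 1 (gam T H U a) w :=
    ContDiffAt.comp (g := fun p : EuclideanSpace ℝ (Fin k) × E => gam T H U p.1 p.2) w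
      (gam_smooth hH hU a hw) (contDiffAt_const.prodMk contDiffAt_id)
  exact (h1.differentiableAt one_ne_zero).hasFDerivAt

/-- shifting the parameter in the directions `ι` adds a constant to the gradient -/
lemma gam_shift (hV : IsOpen V) (hH : ∀ w ∈ V, ContDiffAt ℝ 2 H w)
    (hU : ∀ w ∈ V, ContDiffAt ℝ 2 U w) (hT : ∀ w ∈ V, ∀ b, ⟪ι b, U w⟫ = T b w)
    (a : EuclideanSpace ℝ (Fin k)) (b : E) {w : E} (hw : w ∈ V) :
    gam T H U (a + (-ι) b) w = gam T H U a w - b := by
  unfold gam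
  have h1 : Phi H U (a + (-ι) b) =ᶠ[𝓝 w] fun w' => Phi H U a w' - T b w' := by
    filter_upwards [hV.mem_nhds hw] with w' hw'
    unfold Phi
    rw [ContinuousLinearMap.neg_apply, ← sub_eq_add_neg, inner_sub_left, hT w' hw' b]
    ring
  have h2 : DifferentiableAt ℝ (Phi H U a) w := by
    have h3 : ContDiffAt ℝ 2 (Phi H U a) w :=
      ContDiffAt.comp w (phi_smooth hH hU a hw) (contDiffAt_const.prodMk contDiffAt_id)
    exact h3.differentiableAt two_ne_zero
  rw [h1.fderiv_eq, fderiv_fun_sub h2 (T b).differentiableAt, (T b).fderiv, map_sub,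
    ContinuousLinearEquiv.symm_apply_apply]

lemma der_shift (hV : IsOpen V) (hH : ∀ w ∈ V, ContDiffAt ℝ 2 H w)
    (hU : ∀ w ∈ V, ContDiffAt ℝ 2 U w) (hT : ∀ w ∈ V, ∀ b, ⟪ι b, U w⟫ = T b w)
    (a : EuclideanSpace ℝ (Fin k)) (b : E) {w : E} (hw : w ∈ V) :
    fderiv ℝ (gam T H U (a + (-ι) b)) w = fderiv ℝ (gam T H U a) w := by
  have h1 : gam T H U (a + (-ι) b) =ᶠ[𝓝 w] fun w' => gam T H U a w' - b := by
    filter_upwards [hV.mem_nhds hw] with w' hw'
    exact gam_shift hV hH hU hT a b hw'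
  rw [h1.fderiv_eq, fderiv_sub_const]

/-- the parameters with a degenerate critical point in `K` -/
def Bad (T : E ≃L[ℝ] (E →L[ℝ] ℝ)) (H : E → ℝ) (U : E → EuclideanSpace ℝ (Fin k)) (K : Set E) :
    Set (EuclideanSpace ℝ (Fin k)) :=
  {a | ∃ w ∈ K, gam T H U a w = 0 ∧ (fderiv ℝ (gam T H U a) w).det = 0}

lemma bad_meas (hH : ∀ w ∈ V, ContDiffAt ℝ 2 H w)
    (hU : ∀ w ∈ V, ContDiffAt ℝ 2 U w) (hK : IsCompact K) (hKV : K ⊆ V) :
    MeasurableSet (Bad T H U K) := by
  set C : ℕ → Set (EuclideanSpace ℝ (Fin k) × E) := fun R =>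
    {p | p ∈ closedBall (0 : EuclideanSpace ℝ (Fin k)) R ×ˢ K ∧
      (gam T H U p.1 p.2, (fderiv ℝ (gam T H U p.1) p.2).det) ∈ ({(0, 0)} : Set (E × ℝ))} with hC
  have hCc : ∀ R, IsCompact (C R) := by
    intro R
    have hc : IsCompact (closedBall (0 : EuclideanSpace ℝ (Fin k)) R ×ˢ K) :=
      (isCompact_closedBall _ _).prod hK
    refine hc.of_isClosed_subset ?_ fun p hp => hp.1
    refine ContinuousOn.preimage_isClosed_of_isClosed (f := fun p : EuclideanSpace ℝ (Fin k) × E =>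
      (gam T H U p.1 p.2, (fderiv ℝ (gam T H U p.1) p.2).det)) ?_ hc.isClosed isClosed_singleton
    rintro ⟨a, w⟩ ⟨-, hw⟩
    have h1 := (gam_smooth (T := T) hH hU a (hKV hw)).continuousAt
    have h2 := der_cont (T := T) hH hU a (hKV hw)
    have h3 : ContinuousAt (fun p : EuclideanSpace ℝ (Fin k) × E =>
        (fderiv ℝ (gam T H U p.1) p.2).det) (a, w) :=
      ContinuousAt.comp (g := ContinuousLinearMap.det) ContinuousLinearMap.continuous_det.continuousAt h2
    exact (h1.prodMk h3).continuousWithinAt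
  have h1 : Bad T H U K = ⋃ R : ℕ, Prod.fst '' (C R) := by
    ext a
    simp only [mem_iUnion, mem_image]
    constructor
    · rintro ⟨w, hw, h2, h3⟩
      obtain ⟨R, hR⟩ := exists_nat_ge ‖a‖
      refine ⟨R, (a, w), ⟨⟨?_, hw⟩, ?_⟩, rfl⟩
      · rw [mem_closedBall, dist_zero_right]; exact hR
      · simp only [h2, h3, mem_singleton_iff]
    · rintro ⟨R, ⟨a', w⟩, ⟨⟨-, hw⟩, h2⟩, rfl⟩
      simp only [mem_singleton_iff, Prod.mk.injEq] at h2
      exact ⟨w, hw, h2.1, h2.2⟩
  rw [h1]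
  exact MeasurableSet.iUnion fun R => ((hCc R).image continuous_fst).measurableSet

/-- **local statement** -/
theorem local_fin (hV : IsOpen V) (hH : ∀ w ∈ V, ContDiffAt ℝ 2 H w)
    (hU : ∀ w ∈ V, ContDiffAt ℝ 2 U w) (hT : ∀ w ∈ V, ∀ b, ⟪ι b, U w⟫ = T b w)
    (hK : IsCompact K) (hKV : K ⊆ V) :
    ∀ᵐ a : EuclideanSpace ℝ (Fin k), {w ∈ K | fderiv ℝ (Phi H U a) w = 0}.Finite := by
  letI : MeasurableSpace E := borel E
  haveI : BorelSpace E := ⟨rfl⟩
  have h0 : volume (Bad T H U K) = 0 := by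
    refine null_of_sections volume (Measure.addHaar (G := E)) (-ι) (bad_meas hH hU hK hKV) ?_
    intro a
    have h1 : {b | a + (-ι) b ∈ Bad T H U K} ⊆
        (gam T H U a) '' {w ∈ K | (fderiv ℝ (gam T H U a) w).det = 0} := by
      rintro b ⟨w, hw, h2, h3⟩
      rw [gam_shift hV hH hU hT a b (hKV hw)] at h2
      rw [der_shift hV hH hU hT a b (hKV hw)] at h3
      exact ⟨w, ⟨hw, h3⟩, (sub_eq_zero.1 h2)⟩
    refine measure_mono_null h1 ?_
    refine addHaar_image_eq_zero_of_det_fderivWithin_eq_zero _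
      (f' := fun w => fderiv ℝ (gam T H U a) w) (fun w hw => ?_) (fun w hw => hw.2)
    exact (gam_diff hH hU a (hKV hw.1)).hasFDerivWithinAt
  have h1 : ∀ᵐ a : EuclideanSpace ℝ (Fin k), a ∉ Bad T H U K := by
    rw [ae_iff]
    simpa using h0
  filter_upwards [h1] with a ha
  have hZ : {w ∈ K | fderiv ℝ (Phi H U a) w = 0} = {w ∈ K | gam T H U a w = 0} := by
    ext w
    simp only [mem_setOf_eq, gam]
    rw [ContinuousLinearEquiv.map_eq_zero_iff]
  rw [hZ]
  have hZc : IsCompact {w ∈ K | gam T H U a w = 0} := by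
    refine hK.of_isClosed_subset ?_ fun w hw => hw.1
    refine ContinuousOn.preimage_isClosed_of_isClosed (f := gam T H U a) (t := {0}) ?_ hK.isClosed
      isClosed_singleton
    intro w hw
    exact (gam_diff hH hU a (hKV hw)).continuousAt.continuousWithinAt
  by_contra hinf
  obtain ⟨w, hw, hacc⟩ := Set.Infinite.exists_accPt_of_subset_isCompact hinf hZc subset_rfl
  have hdet : (fderiv ℝ (gam T H U a) w).det ≠ 0 := fun h => ha ⟨w, hw.1, hw.2, h⟩
  have hanti : ∃ C, AntilipschitzWith C (fderiv ℝ (gam T H U a) w) := by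
    set e := ContinuousLinearMap.toContinuousLinearEquivOfDetNeZero _ hdet with he
    have h2 := e.antilipschitz
    exact ⟨‖(e.symm : E →L[ℝ] E)‖₊, h2⟩
  have h2 := (gam_diff (T := T) hH hU a (hKV hw.1)).eventually_ne (c := 0) hanti
  rw [accPt_iff_frequently_nhdsNE] at hacc
  obtain ⟨w', h3, h4⟩ := (hacc.and_eventually h2).exists
  exact h4 h3.2

end Pool.Agent.R552.FA
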