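import Mathlib
import Pool.Agent.R552.FA.Sard
import Pool.Agent.R552.FA.Defs

/-! Finiteness of the critical points of `h + ⟨a, e⟩` on a closed manifold for almost every `a`, where
`e` is an immersion into a Euclidean space. -/

set_option autoImplicit false
set_option maxHeartbeats 400000

open scoped Topology ContDiff Manifold RealInnerProductSpace
open Set MeasureTheory Filter Metric Module

noncomputable section

namespace Pool.Agent.R552.FA

universe u v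

variable {E : Type u} [NormedAddCommGroup E] [NormedSpace ℝ E] [FiniteDimensional ℝ E]
  {N : Type v} [TopologicalSpace N] [ChartedSpace E N] [IsManifold 𝓘(ℝ, E) ∞ N] {k : ℕ}

lemma two_le_infty : (2 : ℕ∞ω) ≤ ∞ := by
  have : ((2 : ℕ∞) : ℕ∞ω) ≤ ((⊤ : ℕ∞) : ℕ∞ω) := by exact_mod_cast le_top
  exact this

/-- `a ↦ ⟨a, D ·⟩` -/
def L1 (D : E →L[ℝ] EuclideanSpace ℝ (Fin k)) : EuclideanSpace ℝ (Fin k) →L[ℝ] (E →L[ℝ] ℝ) :=
  ((ContinuousLinearMap.compL ℝ E (EuclideanSpace ℝ (Fin k)) ℝ).flip D).comp (innerSL ℝ)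

lemma L1_apply (D : E →L[ℝ] EuclideanSpace ℝ (Fin k)) (a : EuclideanSpace ℝ (Fin k)) (b : E) :
    L1 D a b = ⟪a, D b⟫ := rfl

lemma exists_iso (D : E →L[ℝ] EuclideanSpace ℝ (Fin k)) (hinj : Function.Injective D) :
    ∃ T : E ≃L[ℝ] (E →L[ℝ] ℝ), ∀ b, T b = L1 D (D b) := by
  set T0 : E →ₗ[ℝ] (E →L[ℝ] ℝ) := ((L1 D).comp D).toLinearMap with hT0
  have hT0a : ∀ b, T0 b = L1 D (D b) := fun b => rfl
  have h1 : Function.Injective T0 := by
    rw [injective_iff_map_eq_zero]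
    intro b hb
    have h2 : T0 b b = 0 := by rw [hb]; rfl
    rw [hT0a, L1_apply, inner_self_eq_zero] at h2
    exact hinj (h2.trans (map_zero D).symm)
  have hdim : finrank ℝ E = finrank ℝ (E →L[ℝ] ℝ) := by
    rw [← (LinearMap.toContinuousLinearMap (𝕜 := ℝ) (E := E) (F' := ℝ)).finrank_eq]
    exact (Subspace.dual_finrank_eq (K := ℝ) (V := E)).symm
  refine ⟨(LinearMap.linearEquivOfInjective T0 h1 hdim).toContinuousLinearEquiv, fun b => ?_⟩
  exact hT0a b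

theorem nbhd_fin {e : N → EuclideanSpace ℝ (Fin k)}
    (he : ContMDiff 𝓘(ℝ, E) 𝓘(ℝ, EuclideanSpace ℝ (Fin k)) ∞ e) (x₀ : N)
    (hinj : Function.Injective (mfderiv 𝓘(ℝ, E) 𝓘(ℝ, EuclideanSpace ℝ (Fin k)) e x₀))
    {h : N → ℝ} (hh : Smooth E h) :
    ∃ O ∈ 𝓝 x₀, ∀ᵐ a : EuclideanSpace ℝ (Fin k),
      {x ∈ O | IsCrit E (fun x => h x + ⟪a, e x⟫) x}.Finite := by
  set φ := extChartAt 𝓘(ℝ, E) x₀ with hφ
  set y₀ : E := φ x₀ with hy₀
  set u : E → EuclideanSpace ℝ (Fin k) := fun y => e (φ.symm y) with hu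
  set h' : E → ℝ := fun y => h (φ.symm y) with hh'
  have htgt : IsOpen φ.target := isOpen_extChartAt_target x₀
  have hy₀t : y₀ ∈ φ.target := mem_extChartAt_target x₀
  have hsymm : ∀ y ∈ φ.target, ContMDiffAt 𝓘(ℝ, E) 𝓘(ℝ, E) ∞ φ.symm y := fun y hy =>
    (contMDiffOn_extChartAt_symm x₀).contMDiffAt (htgt.mem_nhds hy)
  have hu2 : ∀ y ∈ φ.target, ContDiffAt ℝ 2 u y := by
    intro y hy
    have h1 : ContMDiffAt 𝓘(ℝ, E) 𝓘(ℝ, EuclideanSpace ℝ (Fin k)) ∞ u y :=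
      ContMDiffAt.comp y (he _) (hsymm y hy)
    exact (contMDiffAt_iff_contDiffAt.1 h1).of_le two_le_infty
  have hh2 : ∀ y ∈ φ.target, ContDiffAt ℝ 2 h' y := by
    intro y hy
    have h1 : ContMDiffAt 𝓘(ℝ, E) 𝓘(ℝ, ℝ) ∞ h' y := ContMDiffAt.comp y (hh _) (hsymm y hy)
    exact (contMDiffAt_iff_contDiffAt.1 h1).of_le two_le_infty
  set D₀ : E →L[ℝ] EuclideanSpace ℝ (Fin k) := fderiv ℝ u y₀ with hD₀
  have hDm : Function.Injective D₀ := by
    have h1 : (mfderiv 𝓘(ℝ, E) 𝓘(ℝ, EuclideanSpace ℝ (Fin k)) e x₀ :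
        E →L[ℝ] EuclideanSpace ℝ (Fin k)) = D₀ := by
      have hmd : MDifferentiableAt 𝓘(ℝ, E) 𝓘(ℝ, EuclideanSpace ℝ (Fin k)) e x₀ :=
        he.mdifferentiableAt (by simp)
      rw [mfderiv, if_pos hmd, hD₀, ← fderivWithin_univ]
      congr 1
      · exact (modelWithCornersSelf_coe ℝ E ▸ range_id)
    rw [← h1]
    exact hinj
  obtain ⟨T, hT⟩ := exists_iso D₀ hDm
  set wm : E → E := fun y => T.symm (L1 D₀ (u y)) with hwm
  have hw2 : ∀ y ∈ φ.target, ContDiffAt ℝ 2 wm y := by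
    intro y hy
    exact (T.symm.contDiff.contDiffAt).comp y ((L1 D₀).contDiff.contDiffAt.comp y (hu2 y hy))
  have hwd : HasFDerivAt wm ((ContinuousLinearEquiv.refl ℝ E : E ≃L[ℝ] E) : E →L[ℝ] E) y₀ := by
    have h1 : HasFDerivAt u D₀ y₀ := ((hu2 y₀ hy₀t).differentiableAt two_ne_zero).hasFDerivAt
    have h2 := ((T.symm : (E →L[ℝ] ℝ) →L[ℝ] E).hasFDerivAt).comp y₀
      (((L1 D₀).hasFDerivAt).comp y₀ h1)
    refine h2.congr_fderiv ?_
    refine ContinuousLinearMap.ext fun b => ?_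
    show T.symm (L1 D₀ (D₀ b)) = b
    rw [← hT b, ContinuousLinearEquiv.symm_apply_apply]
  set R := (hw2 y₀ hy₀t).toOpenPartialHomeomorph wm hwd two_ne_zero with hR
  have hRc : ∀ y, R y = wm y := fun y => rfl
  have hy₀R : y₀ ∈ R.source := (hw2 y₀ hy₀t).mem_toOpenPartialHomeomorph_source hwd two_ne_zero
  set w₀ : E := wm y₀ with hw₀
  have hw₀R : w₀ ∈ R.target := R.map_source hy₀R
  have hv0 : ContDiffAt ℝ 2 R.symm w₀ := (hw2 y₀ hy₀t).to_localInverse hwd two_ne_zero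
  have hRw₀ : R.symm w₀ = y₀ := R.left_inv hy₀R
  have hG : {w | w ∈ R.target ∧ R.symm w ∈ φ.target ∧ ContDiffAt ℝ 2 R.symm w} ∈ 𝓝 w₀ := by
    have e1 : ∀ᶠ w in 𝓝 w₀, w ∈ R.target := R.open_target.mem_nhds hw₀R
    have e2 : ∀ᶠ w in 𝓝 w₀, R.symm w ∈ φ.target := by
      have e3 : φ.target ∈ 𝓝 (R.symm w₀) := by rw [hRw₀]; exact htgt.mem_nhds hy₀t
      exact hv0.continuousAt.eventually e3
    have e4 := hv0.eventually (by simp)
    filter_upwards [e1, e2, e4] with w a1 a2 a3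
    exact ⟨a1, a2, a3⟩
  obtain ⟨ρ, hρ, hball⟩ := Metric.mem_nhds_iff.1 hG
  have := FiniteDimensional.proper_real E
  have key := local_fin (V := ball w₀ ρ) (H := fun w => h' (R.symm w)) (U := fun w => u (R.symm w))
    (ι := D₀) (T := T) (K := closedBall w₀ (ρ / 2)) isOpen_ball
    (fun w hw => (hh2 _ (hball hw).2.1).comp w (hball hw).2.2)
    (fun w hw => (hu2 _ (hball hw).2.1).comp w (hball hw).2.2) ?_ (isCompact_closedBall _ _)
    (closedBall_subset_ball (by linarith))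
  swap
  · intro w hw b
    have e1 : wm (R.symm w) = w := R.right_inv (hball hw).1
    have e2 : T w = L1 D₀ (u (R.symm w)) := by
      conv_lhs => rw [← e1]
      rw [hwm]
      exact T.apply_symm_apply _
    have e3 : T w b = ⟪u (R.symm w), D₀ b⟫ := by rw [e2]; rfl
    have e4 : T b w = T w b := by
      rw [hT b, hT w, L1_apply, L1_apply, real_inner_comm]
    rw [e4, e3, real_inner_comm]
  refine ⟨φ.source ∩ φ ⁻¹' (R.source ∩ wm ⁻¹' (closedBall w₀ (ρ / 2))), ?_, ?_⟩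
  · refine Filter.inter_mem (extChartAt_source_mem_nhds x₀) ?_
    refine (continuousAt_extChartAt x₀).preimage_mem_nhds ?_
    refine Filter.inter_mem (R.open_source.mem_nhds hy₀R) ?_
    exact (hw2 y₀ hy₀t).continuousAt.preimage_mem_nhds (closedBall_mem_nhds _ (by positivity))
  · filter_upwards [key] with a ha
    refine Set.Finite.of_injOn (f := fun x => wm (φ x)) ?_ ?_ ha
    · rintro x ⟨⟨hx1, hx2, hx3⟩, hcrit⟩
      refine ⟨hx3, ?_⟩
      have hRx : R.symm (wm (φ x)) = φ x := R.left_inv hx2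
      set w := wm (φ x) with hw
      have hwV : w ∈ ball w₀ ρ := closedBall_subset_ball (by linarith) hx3
      have hψx : φ.symm (R.symm w) = x := by rw [hRx]; exact φ.left_inv hx1
      have h1 : MDifferentiableAt 𝓘(ℝ, E) 𝓘(ℝ, E) (fun w => φ.symm (R.symm w)) w := by
        have h2 : MDifferentiableAt 𝓘(ℝ, E) 𝓘(ℝ, E) φ.symm (R.symm w) :=
          (hsymm _ (hball hwV).2.1).mdifferentiableAt (by simp)
        have h3 : MDifferentiableAt 𝓘(ℝ, E) 𝓘(ℝ, E) R.symm w :=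
          ((hball hwV).2.2.differentiableAt two_ne_zero).mdifferentiableAt
        exact MDifferentiableAt.comp w h2 h3
      have hfs : ContMDiff 𝓘(ℝ, E) 𝓘(ℝ, ℝ) ∞ (fun x => h x + ⟪a, e x⟫) := by
        have hh3 : ContMDiff 𝓘(ℝ, E) 𝓘(ℝ, ℝ) ∞ h := hh
        have hh4 : ContMDiff 𝓘(ℝ, E) 𝓘(ℝ, ℝ) ∞ (fun x => ⟪a, e x⟫) :=
          ((innerSL ℝ a).contMDiff).comp he
        have hh5 : ContDiff ℝ ∞ (fun p : ℝ × ℝ => p.1 + p.2) := contDiff_fst.add contDiff_snd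
        exact hh5.contMDiff.comp (hh3.prodMk_space hh4)
      have h4 : HasMFDerivAt 𝓘(ℝ, E) 𝓘(ℝ, ℝ) (fun x => h x + ⟪a, e x⟫) (φ.symm (R.symm w))
          (0 : E →L[ℝ] ℝ) := by
        have h5 := (hfs.mdifferentiableAt (x := φ.symm (R.symm w)) (by simp)).hasMFDerivAt
        have h6 : mfderiv 𝓘(ℝ, E) 𝓘(ℝ, ℝ) (fun x => h x + ⟪a, e x⟫) (φ.symm (R.symm w)) =
            (0 : E →L[ℝ] ℝ) := by
          rw [hψx]; exact hcrit
        rw [h6] at h5
        exact h5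
      have h7 := HasMFDerivAt.comp w h4 h1.hasMFDerivAt
      have h8 : HasFDerivAt (Phi (fun w => h' (R.symm w)) (fun w => u (R.symm w)) a)
          (show E →L[ℝ] ℝ from (0 : E →L[ℝ] ℝ).comp (show E →L[ℝ] E from
            (mfderiv 𝓘(ℝ, E) 𝓘(ℝ, E) (fun w => φ.symm (R.symm w)) w))) w :=
        hasMFDerivAt_iff_hasFDerivAt.1 h7
      rw [h8.fderiv]
      exact ContinuousLinearMap.zero_comp _
    · rintro x ⟨⟨hx1, hx2, hx3⟩, -⟩ x' ⟨⟨hx1', hx2', hx3'⟩, -⟩ hxx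
      exact φ.injOn hx1 hx1' (R.injOn hx2 hx2' hxx)

/-- **Finitely many critical points** -/
theorem ae_finite_crit [CompactSpace N] {e : N → EuclideanSpace ℝ (Fin k)}
    (he : ContMDiff 𝓘(ℝ, E) 𝓘(ℝ, EuclideanSpace ℝ (Fin k)) ∞ e)
    (hinj : ∀ x, Function.Injective (mfderiv 𝓘(ℝ, E) 𝓘(ℝ, EuclideanSpace ℝ (Fin k)) e x))
    {h : N → ℝ} (hh : Smooth E h) :
    ∀ᵐ a : EuclideanSpace ℝ (Fin k), {x | IsCrit E (fun x => h x + ⟪a, e x⟫) x}.Finite := by
  have key : ∀ᵐ a : EuclideanSpace ℝ (Fin k),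
      {x ∈ (univ : Set N) | IsCrit E (fun x => h x + ⟪a, e x⟫) x}.Finite := by
    refine isCompact_univ.induction_on (p := fun S => ∀ᵐ a : EuclideanSpace ℝ (Fin k),
      {x ∈ S | IsCrit E (fun x => h x + ⟪a, e x⟫) x}.Finite) ?_ ?_ ?_ ?_
    · simp
    · intro s t hst h1
      filter_upwards [h1] with a ha
      exact ha.subset fun x hx => ⟨hst hx.1, hx.2⟩
    · intro s t h1 h2
      filter_upwards [h1, h2] with a ha hb
      refine (ha.union hb).subset ?_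
      rintro x ⟨hx | hx, h3⟩
      · exact Or.inl ⟨hx, h3⟩
      · exact Or.inr ⟨hx, h3⟩
    · intro x _
      obtain ⟨O, hO, h1⟩ := nbhd_fin he x (hinj x) hh
      exact ⟨O, mem_nhdsWithin_of_mem_nhds hO, h1⟩
  filter_upwards [key] with a ha
  simpa using ha

end Pool.Agent.R552.FA
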