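import Mathlib
import Pool.Agent.Helper186.Flow

/-! Flows of `C¹` vector fields on closed manifolds (after `Helper186/Flow.lean`, which treats smooth
fields). -/

open scoped Topology ContDiff Manifold
open Set Metric Pool.Agent.Helper186

noncomputable section

namespace Pool.Agent.R552.FA

universe u

variable {E : Type u} [NormedAddCommGroup E] [NormedSpace ℝ E] [FiniteDimensional ℝ E]
  {H : Type*} [TopologicalSpace H] {I : ModelWithCorners ℝ E H} [I.Boundaryless]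
  {M : Type*} [TopologicalSpace M] [ChartedSpace H M] [IsManifold I ∞ M]
  {V : (x : M) → TangentSpace I x}

set_option linter.unusedSectionVars false

/-- Local `C¹` flows on manifolds. -/
theorem exists_local_flow_manifold1 [IsManifold I 1 M]
    (hV : ContMDiff I I.tangent 1 (fun x => (⟨x, V x⟩ : TangentBundle I M)))
    (x₀ : M) :
    ∃ U ∈ 𝓝 x₀, ∃ ε > (0 : ℝ), ∃ a : M → ℝ → M, (∀ x ∈ U, a x 0 = x) ∧
      (∀ x ∈ U, IsMIntegralCurveOn (a x) V (Ioo (-ε) ε)) ∧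
      ContMDiffAt (I.prod 𝓘(ℝ, ℝ)) I 1 (fun p : M × ℝ => a p.1 p.2) (x₀, 0) := by
  have hv := (hV x₀)
  rw [contMDiffAt_iff] at hv
  obtain ⟨_, hv⟩ := hv
  have hv2 := (hv.contDiffAt (range_mem_nhds_isInteriorPoint
    (BoundarylessManifold.isInteriorPoint (x := x₀)))).snd
  obtain ⟨r, hr, ε, hε, α, hα0, hαd, hαc⟩ := exists_local_flow (n := 1) one_ne_zero
    (by exact_mod_cast hv2)
  replace hαc : ContDiffAt ℝ 1 α (extChartAt I x₀ x₀, 0) := by exact_mod_cast hαc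
  set φ := extChartAt I x₀ with hφ
  have hαx : α (φ x₀, 0) = φ x₀ := hα0 _ (mem_closedBall_self hr.le)
  have htgt : φ.target ∈ 𝓝 (φ x₀) := extChartAt_target_mem_nhds x₀
  have h1 : ∀ᶠ q in 𝓝 ((φ x₀, 0) : E × ℝ), α q ∈ φ.target := by
    have h2 : ∀ᶠ z in 𝓝 (α (φ x₀, 0)), z ∈ φ.target := by rw [hαx]; exact htgt
    exact hαc.continuousAt.eventually h2
  obtain ⟨η, hη, hη'⟩ := Metric.eventually_nhds_iff.1 h1
  refine ⟨φ.source ∩ φ ⁻¹' (closedBall (φ x₀) (min r (η / 2))), ?_, min ε η, by positivity,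
    fun x t => φ.symm (α (φ x, t)), ?_, ?_, ?_⟩
  · apply Filter.inter_mem (extChartAt_source_mem_nhds x₀)
    exact (continuousAt_extChartAt x₀).preimage_mem_nhds
      (closedBall_mem_nhds _ (by positivity))
  · rintro x ⟨hx1, hx2⟩
    have : α (φ x, 0) = φ x :=
      hα0 _ (closedBall_subset_closedBall (min_le_left _ _) hx2)
    simp only [this]
    exact φ.left_inv hx1
  · rintro x ⟨hx1, hx2⟩ t ht
    have ht' : t ∈ Ioo (-ε) ε :=
      ⟨by linarith [ht.1, min_le_left ε η], by linarith [ht.2, min_le_left ε η]⟩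
    have hd := hαd (φ x) (closedBall_subset_closedBall (min_le_left _ _) hx2) t ht'
    have hmem : α (φ x, t) ∈ φ.target := by
      apply hη'
      rw [Prod.dist_eq]
      apply max_lt
      · have := (mem_closedBall.1 hx2).trans (min_le_right _ _)
        exact lt_of_le_of_lt this (by linarith)
      · simp only [dist_zero_right, Real.norm_eq_abs]
        rw [abs_lt]
        constructor
        · linarith [ht.1, min_le_right ε η]
        · linarith [ht.2, min_le_right ε η]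
    exact (hasMFDerivAt_of_chart (V := V) x₀ (fun s => α (φ x, s)) t hmem hd).hasMFDerivWithinAt
  · have h3 : ContMDiffAt (I.prod 𝓘(ℝ, ℝ)) 𝓘(ℝ, E × ℝ) 1
        (fun p : M × ℝ => (φ p.1, p.2)) (x₀, 0) := by
      apply ContMDiffAt.prodMk_space
      · exact (contMDiffAt_extChartAt (x := x₀)).comp (x₀, (0:ℝ)) contMDiffAt_fst
      · exact contMDiffAt_snd
    have h4 : ContMDiffAt (I.prod 𝓘(ℝ, ℝ)) 𝓘(ℝ, E) 1
        (fun p : M × ℝ => α (φ p.1, p.2)) (x₀, 0) :=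
      ContMDiffAt.comp (x₀, (0:ℝ)) hαc.contMDiffAt h3
    have h5 : ContMDiffAt 𝓘(ℝ, E) I 1 φ.symm (α (φ x₀, 0)) := by
      rw [hαx]
      exact (contMDiffOn_extChartAt_symm x₀).contMDiffAt htgt
    exact ContMDiffAt.comp (x₀, (0:ℝ)) h5 h4

/-- Uniform existence time on a compact manifold, and completeness. -/
theorem complete1 [T2Space M] [CompactSpace M] [IsManifold I 1 M]
    (hV : ContMDiff I I.tangent 1 (fun x => (⟨x, V x⟩ : TangentBundle I M))) (x : M) :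
    ∃ γ : ℝ → M, γ 0 = x ∧ IsMIntegralCurve γ V := by
  obtain ⟨ε, hε, h⟩ : ∃ ε > (0:ℝ), ∀ x ∈ (univ : Set M), ∃ γ : ℝ → M, γ 0 = x ∧
      IsMIntegralCurveOn γ V (Ioo (-ε) ε) := by
    refine isCompact_univ.induction_on (p := fun S => ∃ ε > (0:ℝ), ∀ x ∈ S, ∃ γ : ℝ → M,
      γ 0 = x ∧ IsMIntegralCurveOn γ V (Ioo (-ε) ε)) ⟨1, one_pos, by simp⟩ ?_ ?_ ?_
    · rintro s t hst ⟨ε, hε, h⟩
      exact ⟨ε, hε, fun x hx => h x (hst hx)⟩
    · rintro s t ⟨ε₁, hε₁, h₁⟩ ⟨ε₂, hε₂, h₂⟩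
      refine ⟨min ε₁ ε₂, by positivity, ?_⟩
      rintro x (hx | hx)
      · obtain ⟨γ, h0, hγ⟩ := h₁ x hx
        exact ⟨γ, h0, hγ.mono (Ioo_subset_Ioo (neg_le_neg (min_le_left _ _)) (min_le_left _ _))⟩
      · obtain ⟨γ, h0, hγ⟩ := h₂ x hx
        exact ⟨γ, h0, hγ.mono (Ioo_subset_Ioo (neg_le_neg (min_le_right _ _)) (min_le_right _ _))⟩
    · intro x _
      obtain ⟨U, hU, ε, hε, a, ha0, had, -⟩ := exists_local_flow_manifold1 hV x
      exact ⟨U, mem_nhdsWithin_of_mem_nhds hU, ε, hε, fun y hy => ⟨a y, ha0 y hy, had y hy⟩⟩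
  exact exists_isMIntegralCurve_of_isMIntegralCurveOn hV hε (fun y => h y (mem_univ y)) x

/-- Uniqueness of integral curves. -/
lemma curve_unique [T2Space M] [IsManifold I 1 M]
    (hV : ContMDiff I I.tangent 1 (fun x => (⟨x, V x⟩ : TangentBundle I M)))
    {γ γ' : ℝ → M} (h : IsMIntegralCurve γ V) (h' : IsMIntegralCurve γ' V) (h0 : γ 0 = γ' 0) :
    γ = γ' :=
  isMIntegralCurve_Ioo_eq_of_contMDiff_boundaryless (t₀ := 0) hV h h' h0

/-- The group property of a complete flow. -/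
lemma flow_add1 [T2Space M] [IsManifold I 1 M]
    (hV : ContMDiff I I.tangent 1 (fun x => (⟨x, V x⟩ : TangentBundle I M)))
    {Fl : M → ℝ → M} (h0 : ∀ x, Fl x 0 = x) (hFl : ∀ x, IsMIntegralCurve (Fl x) V)
    (x : M) (s t : ℝ) : Fl x (s + t) = Fl (Fl x s) t := by
  have h1 : IsMIntegralCurve (fun t => Fl x (s + t)) V := by
    have := (hFl x).comp_add s
    convert this using 2
    simp [Function.comp, add_comm]
  have h2 := hFl (Fl x s)
  have h3 : (fun t => Fl x (s + t)) = Fl (Fl x s) := curve_unique hV h1 h2 (by simp [h0])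
  exact congrFun h3 t

/-- A complete flow is continuous near time zero. -/
lemma flow_zero1 [T2Space M] [IsManifold I 1 M]
    (hV : ContMDiff I I.tangent 1 (fun x => (⟨x, V x⟩ : TangentBundle I M)))
    {Fl : M → ℝ → M} (h0 : ∀ x, Fl x 0 = x) (hFl : ∀ x, IsMIntegralCurve (Fl x) V)
    (x₀ : M) : ∀ᶠ p : M × ℝ in 𝓝 (x₀, 0), ContinuousAt (fun p : M × ℝ => Fl p.1 p.2) p := by
  obtain ⟨U, hU, ε, hε, a, ha0, had, hac⟩ := exists_local_flow_manifold1 hV x₀
  have h1 : ContMDiffAt (I.prod 𝓘(ℝ, ℝ)) I 1 (fun p : M × ℝ => Fl p.1 p.2) (x₀, 0) := by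
    refine hac.congr_of_eventuallyEq ?_
    have : U ×ˢ Ioo (-ε) ε ∈ 𝓝 (x₀, (0:ℝ)) :=
      prod_mem_nhds hU (Ioo_mem_nhds (by simpa using hε) hε)
    filter_upwards [this] with p hp
    refine isMIntegralCurveOn_Ioo_eqOn_of_contMDiff_boundaryless (t₀ := 0)
        (show (0:ℝ) ∈ Ioo (-ε) ε from ⟨by simpa using hε, hε⟩) hV
        ((hFl p.1).isMIntegralCurveOn _) (had p.1 hp.1) ?_ hp.2
    rw [h0, ha0 _ hp.1]
  have h2 := (contMDiffAt_iff_contMDiffAt_nhds (by simp)).1 h1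
  filter_upwards [h2] with p hp
  exact hp.continuousAt

/-- **Continuity of complete flows of `C¹` fields.** -/
theorem continuous_flow1 [T2Space M] [IsManifold I 1 M]
    (hV : ContMDiff I I.tangent 1 (fun x => (⟨x, V x⟩ : TangentBundle I M)))
    {Fl : M → ℝ → M} (h0 : ∀ x, Fl x 0 = x) (hFl : ∀ x, IsMIntegralCurve (Fl x) V) :
    Continuous (fun p : M × ℝ => Fl p.1 p.2) := by
  rw [continuous_iff_continuousAt]
  rintro ⟨x₀, t⟩
  set A : Set ℝ := {t | ContinuousAt (fun p : M × ℝ => Fl p.1 p.2) (x₀, t)} with hA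
  -- local propagation
  have hloc : ∀ t₀ : ℝ, ∃ δ > (0:ℝ), ∀ t₁ ∈ ball t₀ δ, ∀ t₂ ∈ ball t₀ δ, t₁ ∈ A → t₂ ∈ A := by
    intro t₀
    have hz2 := flow_zero1 hV h0 hFl (Fl x₀ t₀)
    rw [nhds_prod_eq, Filter.eventually_prod_iff] at hz2
    obtain ⟨P, hP, Q, hQ, hPQ⟩ := hz2
    obtain ⟨δ₁, hδ₁, hδ₁'⟩ := Metric.eventually_nhds_iff.1 hQ
    have hc : Continuous (Fl x₀) := (hFl x₀).continuous
    obtain ⟨δ₂, hδ₂, hδ₂'⟩ := Metric.eventually_nhds_iff.1 (hc.continuousAt.eventually hP)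
    refine ⟨min (δ₁ / 2) δ₂, by positivity, ?_⟩
    intro t₁ ht₁ t₂ ht₂ h
    have e1 : (fun p : M × ℝ => Fl p.1 p.2) =
        (fun q : M × ℝ => Fl q.1 q.2) ∘ (fun p : M × ℝ => (Fl p.1 t₁, p.2 - t₁)) := by
      ext p
      simp only [Function.comp]
      rw [← flow_add1 hV h0 hFl]
      congr 1; ring
    show ContinuousAt (fun p : M × ℝ => Fl p.1 p.2) (x₀, t₂)
    rw [e1]
    have hP1 : P (Fl x₀ t₁) := hδ₂' (lt_of_lt_of_le (mem_ball.1 ht₁) (min_le_right _ _))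
    have hQ1 : Q (t₂ - t₁) := by
      apply hδ₁'
      have a1 := lt_of_lt_of_le (mem_ball.1 ht₁) (min_le_left _ _)
      have a2 := lt_of_lt_of_le (mem_ball.1 ht₂) (min_le_left _ _)
      rw [Real.dist_eq] at *
      rw [abs_lt] at *
      constructor <;> linarith
    refine ContinuousAt.comp (x := (x₀, t₂)) (hPQ hP1 hQ1) ?_
    have h' : ContinuousAt (fun p : M × ℝ => Fl p.1 p.2) (x₀, t₁) := h
    have h3 : ContinuousAt (fun p : M × ℝ => (p.1, t₁)) (x₀, t₂) := by fun_prop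
    have h4 : ContinuousAt (fun p : M × ℝ => Fl p.1 t₁) (x₀, t₂) :=
      ContinuousAt.comp (x := (x₀, t₂)) (g := fun q : M × ℝ => Fl q.1 q.2) h' h3
    exact h4.prodMk (by fun_prop)
  have hclopen : IsClopen A := by
    constructor
    · rw [← isOpen_compl_iff, Metric.isOpen_iff]
      intro t₀ ht₀
      obtain ⟨δ, hδ, hδ'⟩ := hloc t₀
      exact ⟨δ, hδ, fun t₁ ht₁ hmem => ht₀ (hδ' t₁ ht₁ t₀ (mem_ball_self hδ) hmem)⟩
    · rw [Metric.isOpen_iff]
      intro t₀ ht₀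
      obtain ⟨δ, hδ, hδ'⟩ := hloc t₀
      exact ⟨δ, hδ, fun t₁ ht₁ => hδ' t₀ (mem_ball_self hδ) t₁ ht₁ ht₀⟩
  have h0A : (0:ℝ) ∈ A := (flow_zero1 hV h0 hFl x₀).self_of_nhds
  have : A = univ := hclopen.eq_univ ⟨0, h0A⟩
  have : t ∈ A := this ▸ mem_univ t
  exact this

end Pool.Agent.R552.FA
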