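import Mathlib
import Pool.Agent.R552.FA.Defs
import Pool.Agent.R552.FA.Flow1
import Pool.Agent.H826R2.Wein.Grad

set_option autoImplicit false
set_option maxHeartbeats 400000

open scoped Topology ContDiff Manifold
open Set MeasureTheory Filter Pool.Agent.H826R2.Wein Pool.Agent.Helper186

noncomputable section

namespace Pool.Agent.R552.FA

universe u v

/-! ### `ω`-limit sets of curves in compact spaces -/

section Omega

variable {N : Type v} [TopologicalSpace N]

lemma mem_omega_iff {γ : ℝ → N} {z : N} :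
    z ∈ omega γ ↔ ∀ T : ℝ, ∀ W : Set N, IsOpen W → z ∈ W → ∃ t, T ≤ t ∧ γ t ∈ W := by
  unfold omega
  rw [mem_iInter]
  refine forall_congr' fun T => ?_
  rw [mem_closure_iff]
  constructor
  · intro h W hW hz
    obtain ⟨y, hy, t, ht, rfl⟩ := h W hW hz
    exact ⟨t, ht, hy⟩
  · intro h W hW hz
    obtain ⟨t, ht, h1⟩ := h W hW hz
    exact ⟨γ t, h1, t, ht, rfl⟩

lemma omega_nonempty [CompactSpace N] (γ : ℝ → N) : (omega γ).Nonempty := by
  unfold omega
  refine IsCompact.nonempty_iInter_of_directed_nonempty_isCompact_isClosed _ ?_ ?_ ?_ ?_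
  · intro s t
    refine ⟨max s t, ?_, ?_⟩
    · exact closure_mono (image_mono (Ici_subset_Ici.2 (le_max_left _ _)))
    · exact closure_mono (image_mono (Ici_subset_Ici.2 (le_max_right _ _)))
  · intro T
    exact ⟨γ T, subset_closure ⟨T, self_mem_Ici, rfl⟩⟩
  · intro T
    exact isClosed_closure.isCompact
  · intro T
    exact isClosed_closure

/-- a curve in a compact space is eventually in every neighbourhood of its `ω`-limit set -/
lemma eventually_of_omega_subset [CompactSpace N] {γ : ℝ → N} {U : Set N} (hU : IsOpen U)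
    (h : omega γ ⊆ U) : ∃ T : ℝ, ∀ t, T ≤ t → γ t ∈ U := by
  by_contra hcon
  push Not at hcon
  have h1 : (⋂ T : ℝ, closure (γ '' Ici T) ∩ Uᶜ).Nonempty := by
    refine IsCompact.nonempty_iInter_of_directed_nonempty_isCompact_isClosed _ ?_ ?_ ?_ ?_
    · intro s t
      refine ⟨max s t, ?_, ?_⟩
      · exact inter_subset_inter_left _
          (closure_mono (image_mono (Ici_subset_Ici.2 (le_max_left _ _))))
      · exact inter_subset_inter_left _
          (closure_mono (image_mono (Ici_subset_Ici.2 (le_max_right _ _))))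
    · intro T
      obtain ⟨t, ht, h2⟩ := hcon T
      exact ⟨γ t, subset_closure ⟨t, ht, rfl⟩, h2⟩
    · intro T
      exact (isClosed_closure.inter hU.isClosed_compl).isCompact
    · intro T
      exact isClosed_closure.inter hU.isClosed_compl
  obtain ⟨z, hz⟩ := h1
  rw [mem_iInter] at hz
  exact (hz 0).2 (h (mem_iInter.2 fun T => (hz T).1))

/-- the `ω`-limit set of a curve, contained in a finite union of disjoint closed sets, is contained
in one of them -/
lemma omega_subset_one [CompactSpace N] [T2Space N] {γ : ℝ → N} (hγ : Continuous γ) {m : ℕ}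
    {M : Fin m → Set N} (hcl : ∀ i, IsClosed (M i)) (hdis : ∀ i j, i ≠ j → Disjoint (M i) (M j))
    (h : omega γ ⊆ ⋃ i, M i) : ∃ i, omega γ ⊆ M i := by
  obtain ⟨z, hz⟩ := omega_nonempty γ
  obtain ⟨i, hi⟩ := mem_iUnion.1 (h hz)
  refine ⟨i, ?_⟩
  have hB : IsClosed (⋃ j ∈ {j | j ≠ i}, M j) :=
    (toFinite {j | j ≠ i}).isClosed_biUnion fun j _ => hcl j
  have hd : Disjoint (M i) (⋃ j ∈ {j | j ≠ i}, M j) := by
    rw [disjoint_iUnion₂_right]
    intro j hj
    exact hdis i j (Ne.symm hj)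
  obtain ⟨U, W, hU, hW, hMU, hMW, hUW⟩ := normal_separation (hcl i) hB hd
  have h1 : omega γ ⊆ U ∪ W := by
    intro y hy
    obtain ⟨j, hj⟩ := mem_iUnion.1 (h hy)
    by_cases hji : j = i
    · left; rw [hji] at hj; exact hMU hj
    · right; exact hMW (mem_iUnion₂.2 ⟨j, hji, hj⟩)
  obtain ⟨T, hT⟩ := eventually_of_omega_subset (hU.union hW) h1
  have hpre : IsPreconnected (γ '' Ici T) := isPreconnected_Ici.image γ hγ.continuousOn
  have h2 : γ '' Ici T ⊆ U := by
    refine hpre.subset_left_of_subset_union hU hW hUW ?_ ?_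
    · rintro _ ⟨t, ht, rfl⟩
      exact hT t ht
    · obtain ⟨t, ht, h3⟩ := mem_omega_iff.1 hz T U hU (hMU hi)
      exact ⟨γ t, ⟨t, ht, rfl⟩, h3⟩
  intro y hy
  obtain ⟨j, hj⟩ := mem_iUnion.1 (h hy)
  by_cases hji : j = i
  · rw [hji] at hj; exact hj
  · exfalso
    have h3 : y ∈ W := hMW (mem_iUnion₂.2 ⟨j, hji, hj⟩)
    obtain ⟨t, ht, h4⟩ := mem_omega_iff.1 hy T W hW h3
    exact Set.disjoint_left.1 hUW (h2 ⟨t, ht, rfl⟩) h4

end Omega

/-! ### Flows with a Lyapunov function -/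

section Lyap

variable {E : Type u} [NormedAddCommGroup E] [NormedSpace ℝ E] [FiniteDimensional ℝ E]
  {N : Type v} [TopologicalSpace N] [T2Space N] [CompactSpace N]
  [ChartedSpace E N] [IsManifold 𝓘(ℝ, E) ∞ N]

/-- derivative of a function along a trajectory -/
lemma hasDerivAt_along1 {W : Fld E N} {c : ℝ → N}
    (hc : Traj W c) {f : N → ℝ} (hf : Smooth E f) (t : ℝ) :
    HasDerivAt (fun s => f (c s)) (diff E f (c t) (W (c t))) t := by
  have h1 := HasMFDerivAt.comp t (g := f) (f := c)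
    (hf.mdifferentiableAt (by simp)).hasMFDerivAt (hc t)
  have h2 : HasFDerivAt (fun s => f (c s)) (show ℝ →L[ℝ] ℝ from
      (mfderiv (𝓘(ℝ, E)) 𝓘(ℝ, ℝ) f (c t)).comp ((1 : ℝ →L[ℝ] ℝ).smulRight (W (c t)))) t :=
    hasMFDerivAt_iff_hasFDerivAt.1 h1
  have h3 := h2.hasDerivAt
  refine h3.congr_deriv ?_
  show (mfderiv (𝓘(ℝ, E)) 𝓘(ℝ, ℝ) f (c t)) ((1:ℝ) • W (c t)) = _
  rw [one_smul]
  rfl

lemma diff_pert (X W : Fld E N) (ε : ℝ) (f : N → ℝ) (x : N) :
    diff E f x (pert X W ε x) = diff E f x (X x) + ε * diff E f x (W x) := by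
  have h1 : ∀ a b : E, diff E f x (addMul ε a b) = diff E f x a + ε * diff E f x b := by
    intro a b
    rw [addMul, map_add, map_smul]
    rfl
  exact h1 (X x) (W x)

lemma isCr_add {r : ℕ∞} {X W : Fld E N} (hX : IsCr r X) (hW : IsCr ⊤ W)
    (ε : ℝ) : IsCr r (pert X W ε) := by
  unfold IsCr at *
  have hW' : ContMDiff (𝓘(ℝ, E)) (𝓘(ℝ, E)).tangent r (fun x => (⟨x, W x⟩ : TangentBundle (𝓘(ℝ, E)) N)) :=
    hW.of_le (by exact_mod_cast le_top)
  exact hX.add_section (hW'.const_smul_section)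

lemma pert_eq {X W : Fld E N} {ε : ℝ} {x : N} (h : W x = 0) : pert X W ε x = X x := by
  have h1 : ∀ a b : E, b = 0 → addMul ε a b = a := by
    intro a b hb
    rw [addMul, hb, smul_zero, add_zero]
  exact h1 (X x) (W x) h

variable {X W : Fld E N} {h : N → ℝ}

/-- The limit points lie on trajectories of critical points. -/
lemma omega_crit (hX : IsCr 1 X) (hh : Smooth E h)
    (hm : ∀ x, 0 ≤ diff E h x (X x)) (hW : IsCr ⊤ W) (hW1 : ∀ x, 0 ≤ diff E h x (W x))
    (hW2 : ∀ x, diff E h x (W x) = 0 → IsCrit E h x) (hW0 : ∀ x, IsCrit E h x → W x = 0)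
    {ε : ℝ} (hε : 0 < ε) {γ : ℝ → N}
    (hγ : Traj (pert X W ε) γ) {z : N} (hz : z ∈ omega γ) :
    ∃ η : ℝ → N, Traj X η ∧ η 0 = z ∧ ∀ t, IsCrit E h (η t) := by
  have hIM : IsManifold (𝓘(ℝ, E)) 1 N := IsManifold.of_le (n := ∞) (by simp)
  have hY : IsCr 1 (pert X W ε) := isCr_add hX hW ε
  set Y : Fld E N := pert X W ε with hYd
  choose Fl h0 hFl using complete1 (I := 𝓘(ℝ, E)) hY
  have hcont := continuous_flow1 (I := 𝓘(ℝ, E)) hY h0 hFl
  have hdY : ∀ x, diff E h x (Y x) = diff E h x (X x) + ε * diff E h x (W x) := by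
    intro x
    exact diff_pert X W ε h x
  have hdY0 : ∀ x, 0 ≤ diff E h x (Y x) := by
    intro x
    rw [hdY]
    have := hm x
    have := hW1 x
    positivity
  have hmono : ∀ c : ℝ → N, Traj Y c → Monotone (fun s => h (c s)) := by
    intro c hc
    refine monotone_of_deriv_nonneg (fun s => (hasDerivAt_along1 hc hh s).differentiableAt) ?_
    intro s
    rw [(hasDerivAt_along1 hc hh s).deriv]
    exact hdY0 _
  have hcurve : γ = Fl (γ 0) := curve_unique (I := 𝓘(ℝ, E)) hY hγ (hFl _) (by rw [h0])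
  -- invariance of the limit set
  have hinv : ∀ s, Fl z s ∈ omega γ := by
    intro s
    rw [mem_omega_iff]
    intro T U hU hUz
    have hcs : Continuous fun y : N => Fl y s :=
      hcont.comp (continuous_id.prodMk continuous_const)
    obtain ⟨t, ht, h1⟩ := mem_omega_iff.1 hz (T - s) _ (hU.preimage hcs) hUz
    refine ⟨t + s, by linarith, ?_⟩
    have h2 : Fl (γ t) s = γ (t + s) := by
      have e1 : γ t = Fl (γ 0) t := congrFun hcurve t
      have e2 : γ (t + s) = Fl (γ 0) (t + s) := congrFun hcurve (t + s)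
      rw [e1, e2, flow_add1 (I := 𝓘(ℝ, E)) hY h0 hFl]
    rw [← h2]
    exact h1
  -- `h` is constant on the limit set
  have hcst : ∀ y ∈ omega γ, ∀ y' ∈ omega γ, h y ≤ h y' := by
    intro y hy y' hy'
    by_contra hlt
    push Not at hlt
    obtain ⟨c, hc1, hc2⟩ := exists_between hlt
    have hU : IsOpen {w | c < h w} := isOpen_lt continuous_const hh.continuous
    have hU' : IsOpen {w | h w < c} := isOpen_lt hh.continuous continuous_const
    obtain ⟨t, -, h1⟩ := mem_omega_iff.1 hy 0 _ hU hc2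
    obtain ⟨t', ht', h2⟩ := mem_omega_iff.1 hy' t _ hU' hc1
    have h3 := hmono γ hγ ht'
    have h4 : c < h (γ t) := h1
    have h5 : h (γ t') < c := h2
    simp only at h3
    linarith
  have hcrit : ∀ s, IsCrit E h (Fl z s) := by
    intro s
    refine hW2 _ ?_
    have h1 : (fun s => h (Fl z s)) = fun _ => h z := by
      funext s
      exact le_antisymm (hcst _ (hinv s) _ hz) (hcst _ hz _ (hinv s))
    have h2 := hasDerivAt_along1 (hFl z) hh s
    rw [h1] at h2
    have h3 := h2.unique (hasDerivAt_const s (h z))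
    rw [hdY] at h3
    have h4 := hm (Fl z s)
    have h5 := hW1 (Fl z s)
    have h6 : ε * diff E h (Fl z s) (W (Fl z s)) = 0 := by nlinarith [mul_nonneg hε.le h5]
    rcases mul_eq_zero.1 h6 with h7 | h7
    · exact absurd h7 hε.ne'
    · exact h7
  refine ⟨Fl z, ?_, h0 z, hcrit⟩
  intro t
  have h1 := hFl z t
  have h2 : Y (Fl z t) = X (Fl z t) := by
    exact pert_eq (hW0 _ (hcrit t))
  rw [h2] at h1
  exact h1

/-- trajectories of `X` consisting of critical points are trajectories of the perturbed field -/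
lemma curve_of_crit (hW0 : ∀ x, IsCrit E h x → W x = 0) {ε : ℝ} {γ : ℝ → N}
    (hγ : Traj X γ) (hc : ∀ t, IsCrit E h (γ t)) :
    Traj (pert X W ε) γ := by
  intro t
  have h1 := hγ t
  have h2 : (pert X W ε) (γ t) = X (γ t) := by
    exact pert_eq (hW0 _ (hc t))
  rw [h2]
  exact h1

/-- existence of a gradient-like field -/
lemma exists_grad (hh : Smooth E h) :
    ∃ W : Fld E N, IsCr ⊤ W ∧ (∀ x, 0 ≤ diff E h x (W x)) ∧
      (∀ x, diff E h x (W x) = 0 → IsCrit E h x) ∧ (∀ x, IsCrit E h x → W x = 0) := by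
  obtain ⟨k, e, he, -, hinj⟩ := exists_embedding_euclidean_of_compact (I := 𝓘(ℝ, E)) (M := N)
  let ι : Imm (E := E) N k := ⟨e, he, hinj⟩
  refine ⟨ι.grad h, ι.smooth_grad hh, fun x => ι.G_nonneg h x, fun x hx => ι.G_eq_zero hx, ?_⟩
  intro x hx
  refine (ι.grad_unique (u := (0 : E)) ?_).symm
  intro v
  have h1 : dForm (𝓘(ℝ, E)) h x = 0 := hx
  rw [h1]
  show (ι.B x) 0 v = 0
  rw [map_zero]
  rfl

/-- `W` is gradient-like for `h` -/
def GradLike (W : Fld E N) (h : N → ℝ) : Prop :=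
  IsCr ⊤ W ∧ (∀ x, 0 ≤ diff E h x (W x)) ∧
      (∀ x, diff E h x (W x) = 0 → IsCrit E h x) ∧ (∀ x, IsCrit E h x → W x = 0)

/-- main theorem, for a given gradient-like field -/
theorem main_of_gradLike (hX : IsCr 1 X) (hh : Nondecreasing X h) (m : ℕ) (M : Fin m → Set N)
    (hM : CritPieces X h m M) (hW : GradLike W h) {ε : ℝ} (hε : 0 < ε) :
      (∀ γ : ℝ → N, Traj (pert X W ε) γ → ∃ i, omega γ ⊆ M i) ∧
      ∀ (_ : MeasurableSpace N) (μ : Measure N), FiniteAttractors μ (pert X W ε) := by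
  obtain ⟨hh, hm⟩ := hh
  obtain ⟨hM1, hdis, hcov⟩ := hM
  have hcl := fun i => (hM1 i).1
  have hinv := fun i => (hM1 i).2.1
  have htr := fun i => (hM1 i).2.2.1
  have hC := fun i => (hM1 i).2.2.2
  have hIM : IsManifold (𝓘(ℝ, E)) 1 N := IsManifold.of_le (n := ∞) (by simp)
  obtain ⟨hW, hW1, hW2, hW0⟩ := hW
  have hom : ∀ γ : ℝ → N, Traj (pert X W ε) γ → ∃ i, omega γ ⊆ M i := by
    intro γ hγ
    refine omega_subset_one (IsMIntegralCurve.continuous hγ) hcl hdis ?_
    intro z hz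
    obtain ⟨η, hη, hη0, hηc⟩ := omega_crit hX hh hm hW hW1 hW2 hW0 hε hγ hz
    obtain ⟨i, hi⟩ := hcov η hη hηc
    rw [hη0] at hi
    exact mem_iUnion.2 ⟨i, hi⟩
  refine ⟨hom, fun _ μ => ?_⟩
  have hY : IsCr 1 (pert X W ε) := isCr_add hX hW ε
  have hcc : ∀ i, ∀ γ : ℝ → N, Traj X γ → γ 0 ∈ M i → Traj (pert X W ε) γ := fun i γ hγ h0 =>
    curve_of_crit hW0 hγ fun t => hC i _ (hinv i γ hγ h0 t)
  have hI : ∀ i, Invt (pert X W ε) (M i) := by
    intro i γ hγ h0 t
    obtain ⟨η, hη0, hη⟩ := complete1 (I := 𝓘(ℝ, E)) hX (γ 0)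
    have h1 : η 0 ∈ M i := by rw [hη0]; exact h0
    have h2 : γ = η := curve_unique (I := 𝓘(ℝ, E)) hY hγ (hcc i η hη h1) hη0.symm
    rw [h2]
    exact hinv i η hη h1 t
  have hT : ∀ i, Transitive (pert X W ε) (M i) := by
    intro i
    obtain ⟨γ, hγ, h0, h1⟩ := htr i
    exact ⟨γ, hcc i γ hγ h0, h0, h1⟩
  refine ⟨{Λ | (∃ i, Λ = M i) ∧ 0 < μ (basin (pert X W ε) Λ)}, ?_, ?_, ?_⟩
  · refine (finite_range M).subset ?_
    rintro Λ ⟨⟨i, rfl⟩, -⟩
    exact ⟨i, rfl⟩
  · rintro Λ ⟨⟨i, rfl⟩, h1⟩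
    exact ⟨hI i, hT i, h1⟩
  · have hsub : (⋃ Λ ∈ {Λ | (∃ i, Λ = M i) ∧ 0 < μ (basin (pert X W ε) Λ)},
        basin (pert X W ε) Λ)ᶜ ⊆
        ⋃ i ∈ {i | μ (basin (pert X W ε) (M i)) = 0}, basin (pert X W ε) (M i) := by
      intro p hp
      obtain ⟨γ, hγ0, hγ⟩ := complete1 (I := 𝓘(ℝ, E)) hY p
      obtain ⟨i, hi⟩ := hom γ hγ
      have hpi : p ∈ basin (pert X W ε) (M i) := by
        intro η hη hη0
        have : η = γ := curve_unique (I := 𝓘(ℝ, E)) hY hη hγ (by rw [hη0, hγ0])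
        rw [this]
        exact hi
      refine mem_iUnion₂.2 ⟨i, ?_, hpi⟩
      by_contra hne
      apply hp
      exact mem_iUnion₂.2 ⟨M i, ⟨⟨i, rfl⟩, pos_iff_ne_zero.2 hne⟩, hpi⟩
    refine measure_mono_null hsub ?_
    rw [measure_biUnion_null_iff (to_countable _)]
    intro i hi
    exact hi

/-- main theorem -/
theorem main (hX : IsCr 1 X) (hh : Nondecreasing X h) (m : ℕ) (M : Fin m → Set N)
    (hM : CritPieces X h m M) :
    ∃ W : Fld E N, IsCr ⊤ W ∧ ∀ ε : ℝ, 0 < ε →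
      (∀ r : ℕ∞, IsCr r X → IsCr r (pert X W ε)) ∧
      (∀ γ : ℝ → N, Traj (pert X W ε) γ → ∃ i, omega γ ⊆ M i) ∧
      ∀ (_ : MeasurableSpace N) (μ : Measure N), FiniteAttractors μ (pert X W ε) := by
  obtain ⟨W, hW⟩ := exists_grad (E := E) (N := N) hh.1
  exact ⟨W, hW.1, fun ε hε => ⟨fun r hr => isCr_add hr hW.1 ε, main_of_gradLike hX hh m M hM hW hε⟩⟩

end Lyap

end Pool.Agent.R552.FA
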