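import Mathlib
import Pool.Agent.R552.FA.Main
import Pool.Agent.R552.FA.Crit

/-! Hamiltonian and dissipative Hamiltonian vector fields. -/

set_option autoImplicit false
set_option maxHeartbeats 400000

open scoped Topology ContDiff Manifold RealInnerProductSpace
open Set MeasureTheory Filter Metric Module Pool.Agent.H826R2.Wein Pool.Agent.Helper186

noncomputable section

namespace Pool.Agent.R552.FA

universe u v

section Defs

variable {E : Type u} [NormedAddCommGroup E] [NormedSpace ℝ E]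
  {N : Type v} [TopologicalSpace N] [ChartedSpace E N]

/-- The vector field `J dh`, for a field `J` of linear maps from the cotangent to the tangent
spaces. -/
def Jd (J : N → (E →L[ℝ] ℝ) →ₗ[ℝ] E) (h : N → ℝ) : Fld E N := fun x => J x (diff E h x)

/-- `J` is of class `C^r` (that is, `J df` is `C^r` for all smooth `f`) and `ξ(Jξ) ≥ 0` for all
covectors `ξ`; for instance `J` is the field of antisymmetric maps given by a symplectic form or a
Poisson structure, or `J` is given by a Riemannian metric, or the sum of two such fields. -/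
def Dissipative [IsManifold 𝓘(ℝ, E) ∞ N] (r : ℕ∞) (J : N → (E →L[ℝ] ℝ) →ₗ[ℝ] E) : Prop :=
  (∀ f : N → ℝ, Smooth E f → IsCr r (Jd J f)) ∧ ∀ (x : N) (ξ : E →L[ℝ] ℝ), 0 ≤ ξ (J x ξ)

/-- `a + ∑ c i • b i` -/
def addSum {ι : Type} [Fintype ι] (c : ι → ℝ) (a : E) (b : ι → E) : E := a + ∑ i, c i • b i

/-- The vector field `X + ∑ c i W i`. -/
def comb {ι : Type} [Fintype ι] (X : Fld E N) (c : ι → ℝ) (W : ι → Fld E N) : Fld E N :=
  fun x => addSum (E := E) c (X x) (fun i => W i x)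

/-- `Y` has finitely many zeros and each trajectory of `Y` converges to one of them. -/
def Convergent (Y : Fld E N) : Prop :=
  {p | Y p = 0}.Finite ∧ ∀ γ : ℝ → N, Traj Y γ → ∃ p, Y p = 0 ∧ Tendsto γ atTop (𝓝 p)

end Defs

variable {E : Type u} [NormedAddCommGroup E] [NormedSpace ℝ E] [FiniteDimensional ℝ E]
  {N : Type v} [TopologicalSpace N] [T2Space N] [CompactSpace N]
  [ChartedSpace E N] [IsManifold 𝓘(ℝ, E) ∞ N]

lemma traj_const {X : Fld E N} {p : N} (h : X p = 0) : Traj X (fun _ => p) := by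
  intro t
  have h1 : HasMFDerivAt 𝓘(ℝ, ℝ) 𝓘(ℝ, E) (fun _ : ℝ => p) t (0 : ℝ →L[ℝ] E) :=
    hasMFDerivAt_const p t
  refine h1.congr_mfderiv ?_
  rw [h]
  refine ContinuousLinearMap.ext fun (r : ℝ) => ?_
  show (0:E) = r • (0:E)
  rw [smul_zero]

lemma diff_add {f g : N → ℝ} (hf : Smooth E f) (hg : Smooth E g) (x : N) :
    diff E (fun x => f x + g x) x = diff E f x + diff E g x := by
  have h1 : HasMFDerivAt 𝓘(ℝ, E) 𝓘(ℝ, ℝ) f x (diff E f x) :=
    (ContMDiff.mdifferentiableAt hf (by simp)).hasMFDerivAt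
  have h2 : HasMFDerivAt 𝓘(ℝ, E) 𝓘(ℝ, ℝ) g x (diff E g x) :=
    (ContMDiff.mdifferentiableAt hg (by simp)).hasMFDerivAt
  exact (h1.add h2).mfderiv

lemma diff_lin {k : ℕ} {e : N → EuclideanSpace ℝ (Fin k)}
    (he : ContMDiff 𝓘(ℝ, E) 𝓘(ℝ, EuclideanSpace ℝ (Fin k)) ∞ e)
    (l : EuclideanSpace ℝ (Fin k) →L[ℝ] ℝ) (x : N) :
    diff E (fun x => l (e x)) x = l.comp (show E →L[ℝ] EuclideanSpace ℝ (Fin k) from
      mfderiv 𝓘(ℝ, E) 𝓘(ℝ, EuclideanSpace ℝ (Fin k)) e x) := by
  have h1 := (he.mdifferentiableAt (x := x) (by simp)).hasMFDerivAt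
  have h2 : HasMFDerivAt 𝓘(ℝ, EuclideanSpace ℝ (Fin k)) 𝓘(ℝ, ℝ) l (e x) l :=
    l.hasFDerivAt.hasMFDerivAt
  exact (HasMFDerivAt.comp x h2 h1).mfderiv

/-- the differential of `h + ⟨a, e⟩` -/
lemma diff_family {k : ℕ} {e : N → EuclideanSpace ℝ (Fin k)}
    (he : ContMDiff 𝓘(ℝ, E) 𝓘(ℝ, EuclideanSpace ℝ (Fin k)) ∞ e) {h : N → ℝ} (hh : Smooth E h)
    (a : EuclideanSpace ℝ (Fin k)) (x : N) :
    diff E (fun x => h x + ⟪a, e x⟫) x = diff E h x + ∑ i, a i • diff E (fun x => e x i) x := by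
  have h1 : Smooth E (fun x => ⟪a, e x⟫) := ((innerSL ℝ a).contMDiff).comp he
  rw [diff_add hh h1]
  congr 1
  have h2 := diff_lin he (innerSL ℝ a) x
  have h3 : diff E (fun x => ⟪a, e x⟫) x = diff E (fun x => (innerSL ℝ a) (e x)) x := rfl
  rw [h3, h2]
  have h4 : ∀ i, diff E (fun x => e x i) x = (EuclideanSpace.proj (𝕜 := ℝ) i).comp
      (show E →L[ℝ] EuclideanSpace ℝ (Fin k) from
      mfderiv 𝓘(ℝ, E) 𝓘(ℝ, EuclideanSpace ℝ (Fin k)) e x) := fun i =>
    diff_lin he (EuclideanSpace.proj (𝕜 := ℝ) i) x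
  simp_rw [h4]
  refine ContinuousLinearMap.ext fun v => ?_
  set D : E →L[ℝ] EuclideanSpace ℝ (Fin k) :=
    (show E →L[ℝ] EuclideanSpace ℝ (Fin k) from
      mfderiv 𝓘(ℝ, E) 𝓘(ℝ, EuclideanSpace ℝ (Fin k)) e x) with hD
  rw [ContinuousLinearMap.comp_apply, ContinuousLinearMap.sum_apply, innerSL_apply_apply,
    PiLp.inner_apply]
  refine Finset.sum_congr rfl fun i _ => ?_
  rw [ContinuousLinearMap.smul_apply, ContinuousLinearMap.comp_apply, smul_eq_mul]
  have h5 : ∀ s t : ℝ, (⟪s, t⟫ : ℝ) = s * t := fun s t => by simp [mul_comm]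
  rw [h5]
  rfl

/-- the sharp isomorphism -/
lemma exists_sharp {k : ℕ} (ι : Imm (E := E) N k) :
    ∃ S : N → (E →L[ℝ] ℝ) →ₗ[ℝ] E, ∀ (f : N → ℝ) (x : N), ι.grad f x = S x (diff E f x) := by
  have h0 : ∀ x : N, ∃ S : (E →L[ℝ] ℝ) →ₗ[ℝ] E, ∀ f : N → ℝ, ι.grad f x = S (diff E f x) := by
    intro x
    let b : E →L[ℝ] (E →L[ℝ] ℝ) := ι.B x
    have hinj : Function.Injective (b : E →ₗ[ℝ] (E →L[ℝ] ℝ)) := by
      rw [injective_iff_map_eq_zero]
      intro w hw
      apply ι.nondeg x w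
      intro v
      exact DFunLike.congr_fun hw v
    have hdim : finrank ℝ E = finrank ℝ (E →L[ℝ] ℝ) := by
      rw [← (LinearMap.toContinuousLinearMap (𝕜 := ℝ) (E := E) (F' := ℝ)).finrank_eq]
      exact (Subspace.dual_finrank_eq (K := ℝ) (V := E)).symm
    set le := LinearMap.linearEquivOfInjective (b : E →ₗ[ℝ] (E →L[ℝ] ℝ)) hinj hdim with hle
    refine ⟨le.symm, fun f => ?_⟩
    have h1 : le (ι.grad f x : E) = diff E f x := by
      refine ContinuousLinearMap.ext fun v => ?_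
      exact ι.grad_spec f x v
    rw [← h1]
    exact (le.symm_apply_apply (ι.grad f x : E)).symm
  choose S hS using h0
  exact ⟨S, fun f x => hS x f⟩

/-- main theorem -/
theorem ham_main (r : ℕ∞) (hr : 1 ≤ r) (J : N → (E →L[ℝ] ℝ) →ₗ[ℝ] E) (hJ : Dissipative r J)
    (h : N → ℝ) (hh : Smooth E h) :
    ∃ (ι : Type) (_ : Fintype ι) (W : ι → Fld E N), (∀ i, IsCr r (W i)) ∧
      ∀ δ : ℝ, 0 < δ → ∃ c : ι → ℝ, (∀ i, |c i| < δ) ∧ Convergent (comb (Jd J h) c W) ∧
        ∀ (_ : MeasurableSpace N) (μ : Measure N), FiniteAttractors μ (comb (Jd J h) c W) := by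
  obtain ⟨k, e, he, -, hinj⟩ := exists_embedding_euclidean_of_compact (I := 𝓘(ℝ, E)) (M := N)
  let im : Imm (E := E) N k := ⟨e, he, hinj⟩
  obtain ⟨S, hS⟩ := exists_sharp im
  have hei : ∀ i : Fin k, Smooth E (fun x => e x i) := fun i =>
    ((EuclideanSpace.proj (𝕜 := ℝ) i : EuclideanSpace ℝ (Fin k) →L[ℝ] ℝ).contMDiff).comp he
  have hcrr : ∀ f : N → ℝ, Smooth E f → IsCr r (im.grad f) := fun f hf =>
    ContMDiff.of_le (im.smooth_grad hf) (by exact_mod_cast le_top)
  refine ⟨Fin k ⊕ (Unit ⊕ Fin k), inferInstance,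
    Sum.elim (fun i => Jd J (fun x => e x i)) (Sum.elim (fun _ => im.grad h)
      (fun i => im.grad (fun x => e x i))), ?_, ?_⟩
  · rintro (i | i | i)
    · exact hJ.1 _ (hei i)
    · exact hcrr h hh
    · exact hcrr _ (hei i)
  intro δ hδ
  -- choice of the parameter
  obtain ⟨a, ha, haδ⟩ : ∃ a : EuclideanSpace ℝ (Fin k),
      {x | IsCrit E (fun x => h x + ⟪a, e x⟫) x}.Finite ∧ a ∈ ball (0 : EuclideanSpace ℝ (Fin k)) δ := by
    have h1 := ae_finite_crit he hinj hh
    have h2 : volume (ball (0 : EuclideanSpace ℝ (Fin k)) δ) ≠ 0 := (measure_ball_pos _ _ hδ).ne'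
    by_contra hcon
    push Not at hcon
    apply h2
    refine measure_mono_null ?_ (ae_iff.1 h1)
    intro a ha hfin
    exact hcon a hfin ha
  have hai : ∀ i, |a i| < δ := by
    intro i
    have h1 : ‖a‖ < δ := by rwa [mem_ball, dist_zero_right] at haδ
    exact lt_of_le_of_lt (PiLp.norm_apply_le a i) h1
  set ε : ℝ := min (δ / 2) 1 with hε
  have hε0 : 0 < ε := by positivity
  have hεδ : ε < δ := lt_of_le_of_lt (min_le_left _ _) (by linarith)
  have hε1 : ε ≤ 1 := min_le_right _ _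
  set f : N → ℝ := fun x => h x + ⟪a, e x⟫ with hf
  have hfs : Smooth E f := by
    have hh3 : ContMDiff 𝓘(ℝ, E) 𝓘(ℝ, ℝ) ∞ h := hh
    have hh4 : ContMDiff 𝓘(ℝ, E) 𝓘(ℝ, ℝ) ∞ (fun x => ⟪a, e x⟫) :=
      ((innerSL ℝ a).contMDiff).comp he
    have hh5 : ContDiff ℝ ∞ (fun p : ℝ × ℝ => p.1 + p.2) := contDiff_fst.add contDiff_snd
    exact hh5.contMDiff.comp (hh3.prodMk_space hh4)
  refine ⟨Sum.elim (fun i => a i) (Sum.elim (fun _ => ε) (fun i => ε * a i)), ?_, ?_⟩
  · rintro (i | i | i)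
    · exact hai i
    · show |ε| < δ
      rw [abs_of_pos hε0]; exact hεδ
    · show |ε * a i| < δ
      rw [abs_mul, abs_of_pos hε0]
      have := hai i
      nlinarith [abs_nonneg (a i)]
  -- the perturbed field
  have hY : comb (Jd J h) (Sum.elim (fun i => a i) (Sum.elim (fun _ : Unit => ε)
      (fun i => ε * a i))) (Sum.elim (fun i => Jd J (fun x => e x i))
      (Sum.elim (fun _ : Unit => im.grad h)
      (fun i => im.grad (fun x => e x i)))) = pert (Jd J f) (im.grad f) ε := by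
    funext x
    show addSum (E := E) _ _ _ = addMul (E := E) _ _ _
    unfold addSum addMul
    rw [Fintype.sum_sum_type, Fintype.sum_sum_type]
    simp only [Sum.elim_inl, Sum.elim_inr, Finset.univ_unique, Finset.sum_singleton]
    have e1 : im.grad f x = S x (diff E f x) := hS f x
    have e2 : im.grad h x = S x (diff E h x) := hS h x
    have e3 : ∀ i, im.grad (fun x => e x i) x = S x (diff E (fun x => e x i) x) := fun i => hS _ x
    have e4 : diff E f x = diff E h x + ∑ i, a i • diff E (fun x => e x i) x :=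
      diff_family he hh a x
    have e5 : (Jd J f x : E) = J x (diff E h x) + ∑ i, a i • J x (diff E (fun x => e x i) x) := by
      show J x (diff E f x) = _
      rw [e4, map_add, map_sum]
      simp_rw [map_smul]
    have e6 : (im.grad f x : E) =
        S x (diff E h x) + ∑ i, a i • S x (diff E (fun x => e x i) x) := by
      rw [e1, e4, map_add, map_sum]
      simp_rw [map_smul]
    rw [e5, e6]
    simp_rw [e3]
    rw [e2, smul_add, Finset.smul_sum]
    simp_rw [mul_smul]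
    show J x (diff E h x) + (∑ i, a i • J x (diff E (fun x => e x i) x) + _) = _
    rw [add_assoc]
  rw [hY]
  have hX : IsCr 1 (Jd J f) := ContMDiff.of_le (hJ.1 f hfs) (by exact_mod_cast hr)
  have hIM : IsManifold (𝓘(ℝ, E)) 1 N := IsManifold.of_le (n := ∞) (by simp)
  have hgl : GradLike (im.grad f) f := by
    refine ⟨im.smooth_grad hfs, fun x => im.G_nonneg f x, fun x hx => im.G_eq_zero hx, ?_⟩
    intro x hx
    rw [hS f x, show diff E f x = 0 from hx, map_zero]
    rfl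
  have hJ0 : ∀ x, IsCrit E f x → Jd J f x = 0 := by
    intro x hx
    show J x (diff E f x) = 0
    rw [show diff E f x = 0 from hx, map_zero]
  obtain ⟨m, g, hginj, hg⟩ := ha.fin_param
  have hgc : ∀ i, IsCrit E f (g i) := fun i => by
    have : g i ∈ range g := ⟨i, rfl⟩
    rw [hg] at this
    exact this
  have hnd : Nondecreasing (Jd J f) f := ⟨hfs, fun x => hJ.2 x (diff E f x)⟩
  have hM : CritPieces (Jd J f) f m (fun i => {g i}) := by
    refine ⟨fun i => ⟨isClosed_singleton, ?_, ?_, ?_⟩, ?_, ?_⟩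
    · intro γ hγ h0 t
      have h1 := curve_unique (I := 𝓘(ℝ, E)) hX hγ (traj_const (hJ0 _ (hgc i))) h0
      rw [h1]
      rfl
    · exact ⟨fun _ => g i, traj_const (hJ0 _ (hgc i)), rfl, by
        rintro x rfl
        exact subset_closure ⟨0, self_mem_Ici, rfl⟩⟩
    · rintro x rfl
      exact hgc i
    · intro i j hij
      exact disjoint_singleton.2 fun h => hij (hginj h)
    · intro γ _ hc
      have : γ 0 ∈ range g := by rw [hg]; exact hc 0
      obtain ⟨i, hi⟩ := this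
      exact ⟨i, hi.symm⟩
  have hmain := main_of_gradLike hX hnd m (fun i => {g i}) hM hgl hε0
  have hz : ∀ x, pert (Jd J f) (im.grad f) ε x = 0 ↔ IsCrit E f x := by
    intro x
    constructor
    · intro h0
      have h1 := diff_pert (Jd J f) (im.grad f) ε f x
      have h2 : diff E f x (pert (Jd J f) (im.grad f) ε x) = 0 := by
        rw [h0]
        exact map_zero _
      rw [h2] at h1
      have h3 : 0 ≤ diff E f x (Jd J f x) := hJ.2 x (diff E f x)
      have h4 : 0 ≤ diff E f x (im.grad f x) := im.G_nonneg f x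
      have h5 : ε * diff E f x (im.grad f x) = 0 := by nlinarith [mul_nonneg hε0.le h4]
      rcases mul_eq_zero.1 h5 with h6 | h6
      · exact absurd h6 hε0.ne'
      · exact im.G_eq_zero h6
    · intro hc
      rw [pert_eq (hgl.2.2.2 x hc)]
      exact hJ0 x hc
  refine ⟨⟨?_, ?_⟩, hmain.2⟩
  · refine ha.subset fun x hx => (hz x).1 hx
  · intro γ hγ
    obtain ⟨i, hi⟩ := hmain.1 γ hγ
    refine ⟨g i, (hz _).2 (hgc i), ?_⟩
    rw [_root_.tendsto_nhds]
    intro U hU hgU
    obtain ⟨T, hT⟩ := eventually_of_omega_subset (γ := γ) hU (hi.trans (by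
      rintro x rfl; exact hgU))
    exact Filter.eventually_atTop.2 ⟨T, hT⟩

end Pool.Agent.R552.FA
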